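import Pool.Agent.W763.PB.Stm

set_option autoImplicit false

/-! Project PB: part Z7. -/

namespace Pool.Agent.W308.PB

open Pool.Agent.W763.PB

theorem z7 : S_R2 → S_Z7 := by
  intro hR k b m _ _ hk hkb t ht
  have hb : 64 ≤ b := by exact_mod_cast (hR k b hk hkb).1
  have hm : 1 ≤ m := Nat.one_le_iff_ne_zero.2 (NeZero.ne m)
  have hN : 2 * m < b * m := by nlinarith
  have hN1 : 1 < b * m := by omega
  have h1 : (t - 1).val < 2 * m := by
    by_contra h
    apply ht
    unfold Om
    rw [if_neg h]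
  have hone : (1 : ZMod (b * m)).val = 1 := by
    have : Fact (1 < b * m) := ⟨hN1⟩
    exact ZMod.val_one _
  have h2 : t.val = (t - 1).val + 1 := by
    have h3 := ZMod.val_add_of_lt (n := b * m) (a := t - 1) (b := 1) (by rw [hone]; omega)
    rw [sub_add_cancel, hone] at h3
    exact h3
  unfold ww
  split_ifs with h
  · rfl
  · have h4 : t.val = 2 * m := by omega
    have h5 : ((((b * m : ℕ) : ℝ) - (t.val : ℝ)) / (((b : ℝ) - 2) * (m : ℝ))) = 1 := by
      have hb' : (64 : ℝ) ≤ b := by exact_mod_cast hb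
      have hm' : (1 : ℝ) ≤ m := by exact_mod_cast hm
      have h6 : ((b : ℝ) - 2) * (m : ℝ) ≠ 0 := by
        apply mul_ne_zero <;> linarith
      rw [h4, div_eq_one_iff_eq h6]
      push_cast
      ring
    rw [h5, Real.rpow_one]

end Pool.Agent.W308.PB
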